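import Mathlib

set_option autoImplicit false

namespace Pool.Agent.Results.MP_836feb_al.CompositeExponent

universe u v

/-- The free Burnside group `B(ι, n) = F_ι / F_ι^n` on the set `ι` of free generators (so of
rank the cardinality of `ι`) and of exponent `n`: the quotient of the absolutely free group on
`ι` by the normal subgroup generated by all `n`-th powers. -/
abbrev Burnside (ι : Type u) (n : ℕ) : Type u :=
  FreeGroup ι ⧸ Subgroup.normalClosure (Set.range fun w : FreeGroup ι => w ^ n)

/-- `H` is a retract of `G`: some homomorphism `G → H` is the identity on `H`. -/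
def IsRetract {G : Type u} [Group G] (H : Subgroup G) : Prop :=
  ∃ ρ : G →* H, ∀ h : H, ρ (h : G) = h

/-- The `i`-th free generator. -/
def gen {ι : Type u} (n : ℕ) (i : ι) : Burnside ι n :=
  QuotientGroup.mk (FreeGroup.of i)

lemma pow_exp {ι : Type u} (n : ℕ) (x : Burnside ι n) : x ^ n = 1 := by
  obtain ⟨w, rfl⟩ := QuotientGroup.mk_surjective x
  rw [← QuotientGroup.mk_pow, QuotientGroup.eq_one_iff]
  exact Subgroup.subset_normalClosure ⟨w, rfl⟩

/-- The universal property: any map of `ι` to a group of exponent `n` extends. -/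
def lift {ι : Type u} {n : ℕ} {G : Type v} [Group G] (hG : ∀ g : G, g ^ n = 1) (f : ι → G) :
    Burnside ι n →* G :=
  QuotientGroup.lift _ (FreeGroup.lift f) (by
    intro x hx
    have : Subgroup.normalClosure (Set.range fun w : FreeGroup ι => w ^ n) ≤
        (FreeGroup.lift f).ker := by
      apply Subgroup.normalClosure_le_normal
      rintro _ ⟨w, rfl⟩
      simp [MonoidHom.mem_ker, hG]
    exact this hx)

lemma lift_gen {ι : Type u} {n : ℕ} {G : Type v} [Group G] (hG : ∀ g : G, g ^ n = 1)
    (f : ι → G) (i : ι) : lift hG f (gen n i) = f i := by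
  simp [lift, gen]

lemma zmod_exp (n : ℕ) (g : Multiplicative (ZMod n)) : g ^ n = 1 := by
  apply Multiplicative.toAdd.injective
  simp

/-- The generators of a free Burnside group of exponent `n` have order exactly `n`. -/
lemma gen_pow_eq_one {ι : Type u} (n : ℕ) (i : ι) {k : ℕ} (h : gen n i ^ k = 1) : n ∣ k := by
  have h1 := congrArg (lift (zmod_exp n) (fun _ : ι => Multiplicative.ofAdd (1 : ZMod n))) h
  have h2 : (Multiplicative.ofAdd (1 : ZMod n)) ^ k = 1 := by
    rw [← lift_gen (zmod_exp n) (fun _ : ι => Multiplicative.ofAdd (1 : ZMod n)) i, ← map_pow]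
    exact h1.trans (MonoidHom.map_one _)
  rw [← ofAdd_nsmul, ofAdd_eq_one] at h2
  rw [← ZMod.natCast_eq_zero_iff]
  simpa using h2

theorem exists_retract (a b : ℕ) (ha : 1 < a) (hb : 1 < b) (hab : Nat.Coprime a b)
    (ι : Type u) [Nonempty ι] :
    ∃ H : Subgroup (Burnside ι (a * b)), IsRetract H ∧
      ∀ κ : Type v, ¬ Nonempty (H ≃* Burnside κ (a * b)) := by
  classical
  obtain ⟨i₀⟩ := ‹Nonempty ι›
  obtain ⟨e, hea, heb⟩ := Nat.chineseRemainder hab 1 0
  set n := a * b with hn
  have hbe : b ∣ e := (Nat.modEq_zero_iff_dvd).1 heb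
  -- `e ^ 2 ≡ e` modulo `n`
  have hee : e * e ≡ e [MOD n] := by
    rw [hn]
    refine (Nat.modEq_and_modEq_iff_modEq_mul hab).1 ⟨?_, ?_⟩
    · simpa using (hea.mul_left e)
    · exact (((Nat.modEq_zero_iff_dvd).2 (hbe.mul_right e)).trans heb.symm)
  set x : Burnside ι n := gen n i₀ with hx
  let φ : Burnside ι n →* Burnside ι n := lift (pow_exp n) (fun _ => x ^ e)
  have hφx : φ x = x ^ e := lift_gen _ _ _
  have hxe : ∀ k l : ℕ, k ≡ l [MOD n] → x ^ k = x ^ l := by
    intro k l hkl
    rw [← Nat.mod_add_div k n, ← Nat.mod_add_div l n, hkl]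
    simp [pow_add, pow_mul, pow_exp]
  have hφφ : φ.comp φ = φ := by
    ext i
    change φ (φ (gen n i)) = φ (gen n i)
    have : φ (gen n i) = x ^ e := lift_gen _ _ _
    rw [this, map_pow, hφx, ← pow_mul]
    exact hxe _ _ hee
  refine ⟨φ.range, ⟨φ.rangeRestrict, ?_⟩, ?_⟩
  · rintro ⟨_, ⟨y, rfl⟩⟩
    apply Subtype.ext
    exact DFunLike.congr_fun hφφ y
  · -- every element of the range has `a`-th power one
    have hrange : ∀ y : Burnside ι n, (φ y) ^ a = 1 := by
      let ψ : Burnside ι n →* Multiplicative (ZMod n) :=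
        lift (zmod_exp n) (fun _ : ι => Multiplicative.ofAdd (1 : ZMod n))
      have key : ∀ y : Burnside ι n, ∃ k : ℤ, φ y = (x ^ e) ^ k := by
        have hle : φ.range ≤ Subgroup.zpowers (x ^ e) := by
          rw [MonoidHom.range_eq_map, Subgroup.map_le_iff_le_comap]
          intro y _
          obtain ⟨w, rfl⟩ := QuotientGroup.mk_surjective y
          induction w using FreeGroup.induction_on with
          | C1 => exact Subgroup.one_mem _
          | of i =>
            rw [Subgroup.mem_comap]
            have : φ (gen n i) = x ^ e := lift_gen _ _ _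
            change φ (gen n i) ∈ _
            rw [this]
            exact Subgroup.mem_zpowers _
          | inv_of i h =>
            rw [QuotientGroup.mk_inv]
            exact Subgroup.inv_mem _ (h trivial)
          | mul a b h1 h2 =>
            rw [QuotientGroup.mk_mul]
            exact Subgroup.mul_mem _ (h1 trivial) (h2 trivial)
        intro y
        obtain ⟨k, hk⟩ := hle ⟨y, rfl⟩
        exact ⟨k, hk.symm⟩
      intro y
      obtain ⟨k, hk⟩ := key y
      rw [hk, ← zpow_natCast, ← zpow_mul, mul_comm, zpow_mul, zpow_natCast, ← pow_mul]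
      obtain ⟨c, hc⟩ := hbe
      have : x ^ (e * a) = 1 := by
        rw [hc, show b * c * a = n * c by rw [hn]; ring, pow_mul, pow_exp, one_pow]
      rw [this, one_zpow]
    rintro κ ⟨f⟩
    rcases isEmpty_or_nonempty κ with hκ | ⟨⟨j⟩⟩
    · -- `B(∅, n)` is trivial but the retract is not
      have hsub : Subsingleton (Burnside κ n) := by
        refine ⟨fun p q => ?_⟩
        obtain ⟨p, rfl⟩ := QuotientGroup.mk_surjective p
        obtain ⟨q, rfl⟩ := QuotientGroup.mk_surjective q
        rw [Subsingleton.elim p q]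
      have h1 : (⟨φ x, ⟨x, rfl⟩⟩ : φ.range) = 1 := f.injective (Subsingleton.elim _ _)
      have h2 : x ^ e = 1 := by
        rw [← hφx]; exact congrArg Subtype.val h1
      have h3 : n ∣ e := gen_pow_eq_one n i₀ h2
      have h4 : a ∣ e := (Dvd.intro _ rfl).trans h3
      have h5 : e ≡ 0 [MOD a] := (Nat.modEq_zero_iff_dvd).2 h4
      have h6 : 0 ≡ 1 [MOD a] := h5.symm.trans hea
      have h7 : a ∣ 1 := (Nat.modEq_iff_dvd' (by norm_num)).1 h6
      have := Nat.le_of_dvd one_pos h7
      omega
    · -- a generator of `B(κ, n)` has order `n > a`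
      have h1 : (f.symm (gen n j)) ^ a = 1 := by
        obtain ⟨⟨_, ⟨y, rfl⟩⟩, hy⟩ : ∃ z : φ.range, f.symm (gen n j) = z := ⟨_, rfl⟩
        rw [hy]
        apply Subtype.ext
        exact hrange y
      have h2 : gen n j ^ a = 1 := by
        have := congrArg f h1
        simpa using this
      have h3 : n ∣ a := gen_pow_eq_one n j h2
      have h4 : n ≤ a := Nat.le_of_dvd (by omega) h3
      have h5 : a * 2 ≤ a * b := Nat.mul_le_mul_left a hb
      omega

/-- For every odd `n > 1` that is not a prime power, every free Burnside group `B(ι, n)` of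
nonzero rank has a retract that is not a free Burnside group of exponent `n`; in particular
there is no `N` such that for all odd `n ≥ N` all retracts of all `B(m, n)` are free. -/
theorem result :
    (∀ n : ℕ, Odd n → 1 < n → ¬ IsPrimePow n → ∀ (ι : Type u) [Nonempty ι],
      ∃ H : Subgroup (Burnside ι n), IsRetract H ∧
        ∀ κ : Type v, ¬ Nonempty (H ≃* Burnside κ n)) ∧
    ¬ ∃ N : ℕ, ∀ n : ℕ, N ≤ n → Odd n → ∀ (ι : Type u) [Nonempty ι] (H : Subgroup (Burnside ι n)),
        IsRetract H → ∃ κ : Type v, Nonempty (H ≃* Burnside κ n) := by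
  have main : ∀ n : ℕ, 1 < n → ¬ IsPrimePow n → ∀ (ι : Type u) [Nonempty ι],
      ∃ H : Subgroup (Burnside ι n), IsRetract H ∧
        ∀ κ : Type v, ¬ Nonempty (H ≃* Burnside κ n) := by
    intro n hn hpp ι _
    have hp : (n.minFac).Prime := Nat.minFac_prime (by omega)
    have hdvd : n.minFac ∣ n := Nat.minFac_dvd n
    have h0 : n ≠ 0 := by omega
    set a := n.minFac ^ n.factorization n.minFac with ha
    set b := n / n.minFac ^ n.factorization n.minFac with hb
    have hmul : a * b = n := Nat.ordProj_mul_ordCompl_eq_self n n.minFac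
    have hcop : Nat.Coprime a b := by
      rw [ha]
      exact Nat.Coprime.pow_left _ (Nat.coprime_ordCompl hp h0)
    have hfac : n.factorization n.minFac ≠ 0 :=
      (hp.factorization_pos_of_dvd h0 hdvd).ne'
    have ha1 : 1 < a := Nat.one_lt_pow hfac hp.one_lt
    have hb1 : 1 < b := by
      have hb0 : b ≠ 0 := by
        intro h
        rw [h, mul_zero] at hmul
        exact h0 hmul.symm
      rcases Nat.lt_or_ge 1 b with h | h
      · exact h
      · exfalso
        have hb' : b = 1 := le_antisymm h (Nat.one_le_iff_ne_zero.2 hb0)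
        apply hpp
        rw [← hmul, hb', mul_one, ha]
        exact hp.isPrimePow.pow hfac
    have := exists_retract.{u, v} a b ha1 hb1 hcop ι
    rwa [hmul] at this
  refine ⟨fun n _ h1 h2 ι _ => main n h1 h2 ι, ?_⟩
  rintro ⟨N, hN⟩
  -- the exponent `3 * 5 ^ (N + 1)`
  have hodd : Odd (3 * 5 ^ (N + 1)) := by
    refine Odd.mul (by decide) (Odd.pow (by decide))
  have hge : N ≤ 3 * 5 ^ (N + 1) := by
    have : N + 1 < 5 ^ (N + 1) := Nat.lt_pow_self (by norm_num)
    omega
  have hcop : Nat.Coprime 3 (5 ^ (N + 1)) := Nat.Coprime.pow_right _ (by decide)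
  obtain ⟨H, hH, hfree⟩ := exists_retract.{u, v} 3 (5 ^ (N + 1)) (by norm_num)
    (Nat.one_lt_pow (by omega) (by norm_num)) hcop PUnit.{u + 1}
  obtain ⟨κ, hκ⟩ := hN _ hge hodd PUnit H hH
  exact hfree κ hκ

end Pool.Agent.Results.MP_836feb_al.CompositeExponent
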